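import Pool.Agent.W96.CL.Stm
set_option autoImplicit false

/-! The limit of the eigenvalues. -/

open Polynomial Filter Topology MeasureTheory

namespace W96CL

theorem cl_asym (hd : S_dilog) (hs : S_star) (he : S_err) (hc : S_cmp) : S_asym := by
  intro θ z0 s r lam hT
  have hC : 0 < Real.cos (3 * θ / 2) := by
    have h0 := (hT 0).th0
    have h1 := (hT 0).th1
    refine Real.cos_pos_of_mem_Ioo ⟨?_, ?_⟩
    · have := Real.pi_pos; linarith
    · linarith
  have hS : 0 < Real.sin (3 * θ / 2) := by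
    have h0 := (hT 0).th0
    have h1 := (hT 0).th1
    refine Real.sin_pos_of_pos_of_lt_pi (by linarith) ?_
    have := Real.pi_pos; linarith
  obtain ⟨e1, e2, e3⟩ := he θ z0 s r lam hT
  have hcmp := hc θ z0 s r lam hT
  obtain ⟨hd1, hd2⟩ := hd
  set X : ℕ → ℝ := fun n => 4 * Real.pi * ((n : ℝ) + 1) *
      Real.arctan (Real.cos (3 * θ / 2) / Real.sinh (3 * z0 n / 2))
      + 2 * Real.pi * Real.arccos (Real.tanh (3 * z0 n / 2))
      - ∫ u in Set.Ioi (0 : ℝ), dr (n + 1) θ u * Real.log (1 + r n u ^ 2) with hX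
  have hXe : ∀ n, X n = Real.pi ^ 2 + 3 * (∫ v in Set.Ioi (0 : ℝ), Real.log (1 - s n v) /
      Real.sinh (3 * (v + z0 n) / 2)) + Real.log 2 * Real.log 3
      - 2 * (∫ v in Set.Ioi (0 : ℝ), Real.log (1 - s n v) *
        ∫ u in Set.Ioi (0 : ℝ), deriv (fun w => Real.log (1 + r n w ^ 2)) u * kk (u + v))
      - (Ph 3 / 2 + Ph 2) + Ph (-s n 0) := by
    intro n
    have h := (hs (n + 1) θ (z0 n) (s n) (r n) (lam n) (hT n)).2
    push_cast at h
    rw [hX]
    simp only
    linarith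
  have hXlim : Tendsto X atTop (𝓝 (2 * Real.pi ^ 2 / 3)) := by
    have h4 := hd2.comp e3
    have h5 := ((((e1.const_mul 3).const_add (Real.pi ^ 2)).add_const
      (Real.log 2 * Real.log 3)).sub (e2.const_mul 2)).sub_const (Ph 3 / 2 + Ph 2)
    have h6 := h5.add h4
    have hlim : Real.pi ^ 2 + 3 * 0 + Real.log 2 * Real.log 3 - 2 * 0 - (Ph 3 / 2 + Ph 2) +
        -(Real.pi ^ 2 / 6) = 2 * Real.pi ^ 2 / 3 := by
      rw [hd1]; ring
    rw [hlim] at h6
    refine h6.congr fun n => ?_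
    rw [hXe n]
    rfl
  have h7 := hXlim.sub hcmp
  have h8 : Tendsto (fun n : ℕ => 2 * Real.pi * Real.cos (3 * θ / 2) / Real.sin (3 * θ / 2) *
      (((n : ℝ) + 1) * -Real.log (lam n))) atTop (𝓝 (2 * Real.pi ^ 2 / 3 - 0)) := by
    refine h7.congr fun n => ?_
    rw [hX]
    ring
  have hpi := Real.pi_pos
  have h9 := h8.const_mul (Real.sin (3 * θ / 2) / (2 * Real.pi * Real.cos (3 * θ / 2)))
  have hval : Real.sin (3 * θ / 2) / (2 * Real.pi * Real.cos (3 * θ / 2)) *
      (2 * Real.pi ^ 2 / 3 - 0) = Real.pi / 3 * Real.tan (3 * θ / 2) := by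
    rw [Real.tan_eq_sin_div_cos]
    field_simp
    ring
  rw [hval] at h9
  refine h9.congr fun n => ?_
  field_simp

end W96CL
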